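import Pool.Agent.Helper28.ND.Spec4

/-!
# MP_0c2f33_an, C5 (UPP): after the end of the block the `L^q` norm is bounded by the far mass.
-/

namespace Pool.Agent.Helper27.ND.UPP
open MeasureTheory Set Filter Topology
open Pool.Agent.Helper28.ND

lemma fubini_box (w : (Fin 2 → ℝ) → ℝ) (s t : Set ℝ) (hs : MeasurableSet s) (ht : MeasurableSet t)
    (hi : IntegrableOn w {x | x 0 ∈ s ∧ x 1 ∈ t}) :
    (∫ x in {x : Fin 2 → ℝ | x 0 ∈ s ∧ x 1 ∈ t}, w x = ∫ a in s, ∫ b in t, w ![a, b]) ∧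
    IntegrableOn (fun a => ∫ b in t, w ![a, b]) s := by
  have hmp := (volume_preserving_finTwoArrow ℝ).symm
  have hemb := (MeasurableEquiv.finTwoArrow (α := ℝ)).symm.measurableEmbedding
  have hpre : (MeasurableEquiv.finTwoArrow (α := ℝ)).symm ⁻¹' {x | x 0 ∈ s ∧ x 1 ∈ t} = s ×ˢ t := by
    ext z
    simp [MeasurableEquiv.finTwoArrow, Set.mem_prod]
  have hval : ∀ z : ℝ × ℝ, (MeasurableEquiv.finTwoArrow (α := ℝ)).symm z = ![z.1, z.2] := by
    intro z
    rfl
  have e1 : ∫ x in {x : Fin 2 → ℝ | x 0 ∈ s ∧ x 1 ∈ t}, w x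
      = ∫ z in s ×ˢ t, w ![z.1, z.2] := by
    rw [← hmp.setIntegral_preimage_emb hemb, hpre]
    rfl
  have hi2 : IntegrableOn (fun z : ℝ × ℝ => w ![z.1, z.2]) (s ×ˢ t) := by
    have := (hmp.integrableOn_comp_preimage hemb (f := w) (s := {x | x 0 ∈ s ∧ x 1 ∈ t})).2 hi
    rw [hpre] at this
    exact this
  constructor
  · rw [e1, Measure.volume_eq_prod, setIntegral_prod _ (by rw [← Measure.volume_eq_prod]; exact hi2)]
  · have h3 : Integrable (fun z : ℝ × ℝ => w ![z.1, z.2])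
        ((volume.restrict s).prod (volume.restrict t)) := by
      rw [Measure.prod_restrict, ← Measure.volume_eq_prod]
      exact hi2
    exact h3.integral_prod_left

lemma Q2_eq : Q 2 = {x : Fin 2 → ℝ | x 0 ∈ Ioc (0 : ℝ) 1 ∧ x 1 ∈ Ioc (0 : ℝ) 1} := by
  ext x
  simp [Q, Set.mem_pi, Fin.forall_fin_two]

lemma Q4_eq : Q4 = {x : Fin 2 → ℝ | x 0 ∈ Ioo (0 : ℝ) (1 / 4) ∧ x 1 ∈ Ioc (0 : ℝ) 1} := by
  ext x
  simp [Q4, and_assoc]

lemma Q2_fin : volume (Q 2) < ⊤ := by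
  have h : Q 2 ⊆ Set.Icc (fun _ => (0 : ℝ)) (fun _ => 1) := by
    intro x hx
    have h2 : ∀ i, x i ∈ Ioc (0 : ℝ) 1 := fun i => hx i (Set.mem_univ i)
    exact ⟨fun i => (h2 i).1.le, fun i => (h2 i).2⟩
  exact lt_of_le_of_lt (measure_mono h) (isCompact_Icc.measure_lt_top)

lemma Q4_sub : Q4 ⊆ Q 2 := by
  rw [Q4_eq, Q2_eq]
  intro x hx
  exact ⟨⟨hx.1.1, by linarith [hx.1.2]⟩, hx.2⟩

lemma Q2_meas : MeasurableSet (Q 2) :=
  MeasurableSet.univ_pi (fun _ => measurableSet_Ioc)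

lemma Q4_meas : MeasurableSet Q4 := by
  rw [Q4_eq]
  exact (measurableSet_Ioo.preimage (measurable_pi_apply 0)).inter
    (measurableSet_Ioc.preimage (measurable_pi_apply 1))

lemma intQ2 (w : (Fin 2 → ℝ) → ℝ) (hm : Measurable w) (hb : ∃ B, ∀ x, |w x| ≤ B) :
    IntegrableOn w (Q 2) := by
  obtain ⟨B, hB⟩ := hb
  exact Measure.integrableOn_of_bounded Q2_fin.ne hm.aestronglyMeasurable
    (Eventually.of_forall (fun x => by rw [Real.norm_eq_abs]; exact hB x))

/-- The integral over the cell is four times the integral over the quarter cell. -/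
lemma int_four (w : (Fin 2 → ℝ) → ℝ) (hm : Measurable w) (hb : ∃ B, ∀ x, |w x| ≤ B)
    (h1 : ∀ x, w ![-x 0, x 1] = w x) (h2 : ∀ x, w ![1 / 2 - x 0, x 1] = w x) :
    ∫ x in Q 2, w x = 4 * ∫ x in Q4, w x := by
  have hi := intQ2 w hm hb
  have hi4 : IntegrableOn w Q4 := hi.mono_set Q4_sub
  obtain ⟨e1, g1⟩ := fubini_box w (Ioc 0 1) (Ioc 0 1) measurableSet_Ioc measurableSet_Ioc
    (by rw [← Q2_eq]; exact hi)
  obtain ⟨e2, -⟩ := fubini_box w (Ioo 0 (1 / 4)) (Ioc 0 1) measurableSet_Ioo measurableSet_Ioc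
    (by rw [← Q4_eq]; exact hi4)
  rw [← Q2_eq] at e1
  rw [← Q4_eq] at e2
  rw [e1, e2]
  set W : ℝ → ℝ := fun a => ∫ b in Ioc (0 : ℝ) 1, w ![a, b] with hW
  have w1 : ∀ a, W (-a) = W a := by
    intro a
    simp only [hW]
    congr 1
    funext b
    have := h1 ![a, b]
    simpa using this
  have w2 : ∀ a, W (1 / 2 - a) = W a := by
    intro a
    simp only [hW]
    congr 1
    funext b
    have := h2 ![a, b]
    simpa using this
  have w3 : ∀ a, W (a + 1 / 2) = W a := by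
    intro a
    have := w2 (-a)
    rw [w1] at this
    rw [← this]
    congr 1
    ring
  have gI : IntervalIntegrable W volume 0 1 := by
    rw [intervalIntegrable_iff_integrableOn_Ioc_of_le zero_le_one]
    exact g1
  have gsub : ∀ a b : ℝ, 0 ≤ a → a ≤ b → b ≤ 1 → IntervalIntegrable W volume a b := by
    intro a b ha hab hb
    refine gI.mono_set ?_
    rw [uIcc_of_le hab, uIcc_of_le zero_le_one]
    exact Icc_subset_Icc ha hb
  have e3 : ∫ a in Ioc (0 : ℝ) 1, W a = ∫ a in (0 : ℝ)..1, W a :=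
    (intervalIntegral.integral_of_le zero_le_one).symm
  have e4 : ∫ a in Ioo (0 : ℝ) (1 / 4), W a = ∫ a in (0 : ℝ)..(1 / 4), W a := by
    rw [intervalIntegral.integral_of_le (by norm_num), ← integral_Ioc_eq_integral_Ioo]
  have s1 : ∫ a in (0 : ℝ)..1, W a = (∫ a in (0 : ℝ)..(1 / 2), W a) + ∫ a in (1 / 2 : ℝ)..1, W a :=
    (intervalIntegral.integral_add_adjacent_intervals (gsub 0 (1 / 2) le_rfl (by norm_num)
      (by norm_num)) (gsub (1 / 2) 1 (by norm_num) (by norm_num) le_rfl)).symm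
  have s2 : ∫ a in (0 : ℝ)..(1 / 2), W a
      = (∫ a in (0 : ℝ)..(1 / 4), W a) + ∫ a in (1 / 4 : ℝ)..(1 / 2), W a :=
    (intervalIntegral.integral_add_adjacent_intervals (gsub 0 (1 / 4) le_rfl (by norm_num)
      (by norm_num)) (gsub (1 / 4) (1 / 2) (by norm_num) (by norm_num) (by norm_num))).symm
  have s3 : ∫ a in (1 / 2 : ℝ)..1, W a = ∫ a in (0 : ℝ)..(1 / 2), W a := by
    have := intervalIntegral.integral_comp_add_right (a := 0) (b := 1 / 2) W (1 / 2)
    simp only [w3] at this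
    rw [this]
    norm_num
  have s4 : ∫ a in (1 / 4 : ℝ)..(1 / 2), W a = ∫ a in (0 : ℝ)..(1 / 4), W a := by
    have := intervalIntegral.integral_comp_sub_left (a := 0) (b := 1 / 4) W (1 / 2)
    simp only [w2] at this
    rw [this]
    norm_num
  have e5 : (∫ a in Ioc (0 : ℝ) 1, ∫ b in Ioc (0 : ℝ) 1, w ![a, b]) = ∫ a in Ioc (0 : ℝ) 1, W a := rfl
  have e6 : (∫ a in Ioo (0 : ℝ) (1 / 4), ∫ b in Ioc (0 : ℝ) 1, w ![a, b])
      = ∫ a in Ioo (0 : ℝ) (1 / 4), W a := rfl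
  rw [e5, e6, e3, e4, s1, s3, s2, s4]
  ring

theorem main (hRE1 : S_RE1) (hRE2 : S_RE2) (hSMO : S_SMO) (hFLQ : S_FLQ) (hPERX : S_PERX)
    (hBLK : S_BLK) (hNUM : S_NUM) (hFREG : S_FREG) : S_UPP := by
  obtain ⟨C0, hC0, hsmo⟩ := hSMO
  refine ⟨60 * C0 + 80, by linarith, ?_⟩
  intro T n0 N M hPar n k u v hu q hq t ht1 ht2
  obtain ⟨hr, -, hr160, hLL, hLLT, -, hKC, -, -, h15, -, -, hRR⟩ := hNUM T n0 N M hPar k
  obtain ⟨hSit, hper⟩ := hPERX T n0 N M hPar n k u v hu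
  obtain ⟨-, -, -, -, -, hz, -⟩ := hBLK T n0 N M hPar n k
  have hT := hPar.hT
  obtain ⟨hbmp, -, -, -⟩ := hFREG 2 T _ _ u v hT hu
  set r := rr n0 N k with hrdef
  set e := LL n0 N k with hedef
  set s := KC n0 N M k with hsdef
  have hse : s < e := by nlinarith [sq_nonneg r, mul_pos hr hr]
  have heT : e ≤ T := by linarith
  have hzero : ∀ τ x, s < τ → τ < e → ft n0 N M n k τ x = 0 ∧ ∀ i, bt n0 N M n k τ x i = 0 :=
    fun τ x h1 _ => hz τ (Or.inr h1.le) x
  obtain ⟨hA, hB⟩ := hRE1 T _ _ u v hSit s e hKC.le hse heT hRR hzero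
  have hF := hRE2 T _ _ u v hSit s e hKC.le hse heT hRR hzero
  set G := ∫ x in Q4, u s x * Gp (x 0 / RR (e - s)) with hG
  set F := far n0 N M k (u e) with hFd
  have hF' : (1 / 10) * G ≤ F := hF
  -- symmetry of the modulus
  have hmeas : ∀ τ, Measurable (u τ) := fun τ => hbmp.meas.comp (measurable_const.prodMk measurable_id)
  obtain ⟨B, hBd⟩ := hbmp.bdd
  have hfour : ∀ τ, τ ≤ T → ∫ x in Q 2, |u τ x| = 4 * ∫ x in Q4, u τ x := by
    intro τ hτ
    rw [int_four (fun x => |u τ x|) (hmeas τ).abs ⟨B, fun x => by rw [abs_abs]; exact hBd τ x⟩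
      (fun x => by rw [(hSit.su τ).1 x, abs_neg]) (fun x => by rw [(hSit.su τ).2 x])]
    congr 1
    apply setIntegral_congr_fun Q4_meas
    intro x hx
    exact abs_of_nonneg (hSit.up τ x hτ hx.1.le hx.2.1.le)
  have hmT : (s + e) / 2 ≤ T := by linarith
  have hIe : ∫ x in Q 2, |u e x| ≤ 80 * F := by
    rw [hfour e heT]; linarith
  have hIm : ∫ x in Q 2, |u ((s + e) / 2) x| ≤ 120 * F := by
    rw [hfour _ hmT]; linarith
  have hFnn : 0 ≤ F := by
    have h0 : 0 ≤ ∫ x in Q 2, |u e x| := integral_nonneg (fun x => abs_nonneg _)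
    linarith
  -- smoothing
  have hLr : e = 16 * r ^ 2 := rfl
  have hn0 : 0 < n0 * N ^ k := by
    have h1 := hPar.hn
    have h2 : 0 < N := by have := hPar.hN2; omega
    positivity
  have hsup : ∀ x, |u e x| ≤ 60 * C0 * F / r := by
    intro x
    have h1 := hsmo T _ _ u v hT hu ((s + e) / 2) e (n0 * N ^ k) (by linarith) (by linarith) heT
      (by nlinarith) hn0 (by
        have : (1 / ((n0 * N ^ k : ℕ) : ℝ)) = r := rfl
        rw [this]; nlinarith [sq_nonneg r]) (hper ((s + e) / 2))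
      (fun τ h1 h2 x => hz τ (Or.inr (by linarith)) x) x
    have h2 : 2 * r ≤ Real.sqrt (e - (s + e) / 2) := by
      apply Real.le_sqrt_of_sq_le
      nlinarith
    have h3 : C0 / Real.sqrt (e - (s + e) / 2) ≤ C0 / (2 * r) :=
      div_le_div_of_nonneg_left hC0.le (by linarith) h2
    calc |u e x| ≤ C0 / Real.sqrt (e - (s + e) / 2) * ∫ y in Q 2, |u ((s + e) / 2) y| := h1
      _ ≤ C0 / (2 * r) * (120 * F) := by
          apply mul_le_mul h3 hIm (integral_nonneg (fun x => abs_nonneg _))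
          positivity
      _ = 60 * C0 * F / r := by field_simp; ring
  -- the `L^q` norm at time `e`
  have hq0 : ∫ x in Q 2, |u t x| ^ q ≤ ∫ x in Q 2, |u e x| ^ q :=
    hFLQ 2 T _ _ u v hT hu q hq e t (by linarith) ht1 ht2
      (fun τ h1 _ x => (hz τ (Or.inr (by linarith)) x).1)
  have hSnn : 0 ≤ 60 * C0 * F / r := by positivity
  have hq1 : ∫ x in Q 2, |u e x| ^ q ≤ (60 * C0 * F / r) ^ (q - 1) * ∫ x in Q 2, |u e x| := by
    rw [← integral_const_mul]
    have hmo : ∀ x, |u e x| ^ q ≤ (60 * C0 * F / r) ^ (q - 1) * |u e x| := by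
      intro x
      have h1 : |u e x| ^ q = |u e x| ^ (q - 1) * |u e x| := by
        rcases eq_or_lt_of_le (abs_nonneg (u e x)) with h | h
        · rw [← h, Real.zero_rpow (by linarith), mul_zero]
        · rw [← Real.rpow_add_one h.ne']
          congr 1
          ring
      rw [h1]
      exact mul_le_mul_of_nonneg_right (Real.rpow_le_rpow (abs_nonneg _) (hsup x) (by linarith))
        (abs_nonneg _)
    apply integral_mono_of_nonneg
    · exact Eventually.of_forall (fun x => Real.rpow_nonneg (abs_nonneg _) _)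
    · apply Integrable.const_mul
      exact intQ2 _ (hmeas e).abs ⟨B, fun x => by rw [abs_abs]; exact hBd e x⟩
    · exact Eventually.of_forall hmo
  have hfin : (60 * C0 * F / r) ^ (q - 1) * (80 * F)
      ≤ ((60 * C0 + 80) * F) ^ q * r ^ (-(q - 1)) := by
    rw [div_eq_mul_inv, Real.mul_rpow (by positivity) (by positivity), Real.inv_rpow hr.le,
      ← Real.rpow_neg hr.le]
    have h1 : (60 * C0 * F) ^ (q - 1) ≤ ((60 * C0 + 80) * F) ^ (q - 1) :=
      Real.rpow_le_rpow (by positivity) (by nlinarith) (by linarith)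
    have h2 : ((60 * C0 + 80) * F) ^ q = ((60 * C0 + 80) * F) ^ (q - 1) * ((60 * C0 + 80) * F) := by
      rcases eq_or_lt_of_le hFnn with h | h
      · rw [← h, mul_zero, Real.zero_rpow (by linarith), mul_zero]
      · rw [← Real.rpow_add_one (by positivity)]
        congr 1
        ring
    have h3 : 80 * F ≤ (60 * C0 + 80) * F := by nlinarith
    rw [h2]
    have h4 : 0 ≤ r ^ (-(q - 1)) := Real.rpow_nonneg hr.le _
    calc (60 * C0 * F) ^ (q - 1) * r ^ (-(q - 1)) * (80 * F)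
        = ((60 * C0 * F) ^ (q - 1) * (80 * F)) * r ^ (-(q - 1)) := by ring
      _ ≤ (((60 * C0 + 80) * F) ^ (q - 1) * ((60 * C0 + 80) * F)) * r ^ (-(q - 1)) := by
          apply mul_le_mul_of_nonneg_right _ h4
          exact mul_le_mul h1 h3 (by positivity) (Real.rpow_nonneg (by positivity) _)
  calc ∫ x in Q 2, |u t x| ^ q ≤ ∫ x in Q 2, |u e x| ^ q := hq0
    _ ≤ (60 * C0 * F / r) ^ (q - 1) * ∫ x in Q 2, |u e x| := hq1
    _ ≤ (60 * C0 * F / r) ^ (q - 1) * (80 * F) :=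
        mul_le_mul_of_nonneg_left hIe (Real.rpow_nonneg hSnn _)
    _ ≤ ((60 * C0 + 80) * F) ^ q * r ^ (-(q - 1)) := hfin

end Pool.Agent.Helper27.ND.UPP
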